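import Pool.Agent.H6.FC.Lem

/-! MP_7500ea_al, board cfp_modules: row BPL (Brauer's permutation lemma) -/

open scoped Classical ComplexConjugate

namespace Pool.Agent.H97.FC

open FI AMc AMt

theorem irr_fin (N : Type) [Group N] [Fintype N] : (AMc.Irr N).Finite := by
  obtain ⟨fs, hfs, -⟩ := FI.Lib.lS9 N (MonoidHom.id N).range
  have h1 : Function.Injective (MonoidHom.id N) := Function.injective_id
  have h2 : extj (MonoidHom.id N) '' (AMc.Irr N) ⊆ (fs : Set (N → ℂ)) := by
    rintro _ ⟨χ, hχ, rfl⟩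
    exact Finset.mem_coe.2 ((hfs _).2 (((FI.Lib.lK1 N N _ h1).2.1 χ).1 hχ))
  refine ((Finset.finite_toSet fs).subset h2).of_finite_image ?_
  intro a _ b _ hab
  funext n
  have := congrFun hab ((MonoidHom.id N) n)
  rwa [(FI.Lib.lK1 N N _ h1).1 a n, (FI.Lib.lK1 N N _ h1).1 b n] at this

/-- the number of elements of the class of `g` -/
noncomputable def cc {G : Type} [Group G] [Fintype G] (c : ConjClasses G) : ℂ :=
  ((Finset.univ.filter fun a : G => ConjClasses.mk a = c).card : ℂ)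

theorem cc_ne {G : Type} [Group G] [Fintype G] (c : ConjClasses G) : cc c ≠ 0 := by
  obtain ⟨g, rfl⟩ := ConjClasses.exists_rep c
  rw [cc, Nat.cast_ne_zero, Finset.card_ne_zero]
  exact ⟨g, by simp⟩

theorem cls {G : Type} [Group G] [Fintype G] {χ : G → ℂ} (h : χ ∈ AMc.Irr G) (a b : G)
    (hab : ConjClasses.mk a = ConjClasses.mk b) : χ a = χ b := by
  rw [ConjClasses.mk_eq_mk_iff_isConj, isConj_iff] at hab
  obtain ⟨c, rfl⟩ := hab
  exact (((FI.Lib.lA3 G).2.1 χ ((FI.Lib.lA3 G).1 χ h).1).1 c a).symm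

theorem col {G : Type} [Group G] [Fintype G] (fs : Finset (G → ℂ))
    (hfs : ∀ χ, χ ∈ fs ↔ χ ∈ AMc.Irr G) (a b : G) :
    ∑ χ ∈ fs, χ a * conj (χ b) =
      if ConjClasses.mk a = ConjClasses.mk b then (Nat.card G : ℂ) / cc (ConjClasses.mk b)
      else 0 := by
  have h := FI.Lib.lA2 G (fun a => ∑ χ ∈ fs, χ a * conj (χ b) -
      if ConjClasses.mk a = ConjClasses.mk b then (Nat.card G : ℂ) / cc (ConjClasses.mk b)
      else 0) ?_ ?_
  · exact sub_eq_zero.1 (congrFun h a)
  · intro g x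
    have h1 : ConjClasses.mk (g * x * g⁻¹) = ConjClasses.mk x := by
      rw [ConjClasses.mk_eq_mk_iff_isConj]
      exact (isConj_iff.2 ⟨g, rfl⟩).symm
    simp only [h1]
    congr 1
    refine Finset.sum_congr rfl fun χ hχ => ?_
    rw [cls ((hfs χ).1 hχ) _ _ h1]
  · intro ψ hψ
    simp only [sub_mul, Finset.sum_sub_distrib, Finset.sum_mul]
    rw [Finset.sum_comm]
    have h1 : ∀ χ ∈ fs, ∑ x : G, χ x * conj (χ b) * conj (ψ x) =
        if χ = ψ then conj (χ b) * (Nat.card G : ℂ) else 0 := by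
      intro χ hχ
      have h2 := FI.Lib.lA1 G χ ψ ((hfs χ).1 hχ) hψ
      have h3 : ∑ x : G, χ x * conj (χ b) * conj (ψ x) =
          conj (χ b) * ∑ x : G, χ x * conj (ψ x) := by
        rw [Finset.mul_sum]
        exact Finset.sum_congr rfl fun x _ => by ring
      rw [h3, h2]
      split_ifs <;> simp
    rw [Finset.sum_congr rfl h1, Finset.sum_ite_eq' fs ψ, if_pos ((hfs ψ).2 hψ)]
    have h4 : ∑ x : G, (if ConjClasses.mk x = ConjClasses.mk b then
        (Nat.card G : ℂ) / cc (ConjClasses.mk b) else 0) * conj (ψ x) =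
        ∑ x ∈ Finset.univ.filter (fun x : G => ConjClasses.mk x = ConjClasses.mk b),
          (Nat.card G : ℂ) / cc (ConjClasses.mk b) * conj (ψ b) := by
      rw [Finset.sum_filter]
      refine Finset.sum_congr rfl fun x _ => ?_
      split_ifs with h5
      · rw [cls hψ _ _ h5]
      · rw [zero_mul]
    rw [h4, Finset.sum_const, nsmul_eq_mul]
    have h6 : cc (ConjClasses.mk b) ≠ 0 := cc_ne _
    change _ - cc (ConjClasses.mk b) * _ = 0
    field_simp
    ring

theorem pf_BPL : T_BPL := by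
  intro G _ _ α
  haveI := Fintype.ofFinite G
  set fs : Finset (G → ℂ) := (irr_fin G).toFinset with hfs'
  have hfs : ∀ χ, χ ∈ fs ↔ χ ∈ AMc.Irr G := fun χ => by rw [hfs', Set.Finite.mem_toFinset]
  have hpb : ∀ χ ∈ AMc.Irr G, (fun g => χ (α g)) ∈ AMc.Irr G := fun χ hχ =>
    ((FI.Lib.lQI G G (α : G →* G) (MulEquiv.surjective α)).1 χ).1 hχ
  have hmap : ∀ g : G, (ConjClasses.mk g).map (α : G →* G) = ConjClasses.mk (α g) := fun g => rfl
  have hG : (Nat.card G : ℂ) ≠ 0 := by
    rw [Nat.cast_ne_zero]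
    exact Nat.card_pos.ne'
  have h1 : ∑ χ ∈ fs, ∑ g : G, χ (α g) * conj (χ g) =
      (Nat.card G : ℂ) * ((fs.filter fun χ => (fun g => χ (α g)) = χ).card : ℂ) := by
    rw [Finset.card_filter]
    push_cast
    rw [Finset.mul_sum]
    refine Finset.sum_congr rfl fun χ hχ => ?_
    have h2 := FI.Lib.lA1 G (fun g => χ (α g)) χ (hpb χ ((hfs χ).1 hχ)) ((hfs χ).1 hχ)
    rw [h2]
    split_ifs <;> simp
  have h3 : ∑ χ ∈ fs, ∑ g : G, χ (α g) * conj (χ g) =
      (Nat.card G : ℂ) * (Nat.card {c : ConjClasses G // c.map (α : G →* G) = c} : ℂ) := by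
    rw [Finset.sum_comm]
    simp only [col fs hfs]
    haveI : Fintype (ConjClasses G) := Fintype.ofFinite _
    rw [← Finset.sum_fiberwise Finset.univ (fun g : G => ConjClasses.mk g)]
    have hc : Nat.card {c : ConjClasses G // c.map (α : G →* G) = c} =
        (Finset.univ.filter fun c : ConjClasses G => c.map (α : G →* G) = c).card := by
      rw [Nat.card_eq_fintype_card, Fintype.card_subtype]
    rw [hc, Finset.card_filter]
    push_cast
    rw [Finset.mul_sum]
    refine Finset.sum_congr rfl fun c _ => ?_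
    have h4 : ∑ g ∈ Finset.univ.filter (fun g : G => ConjClasses.mk g = c),
        (if ConjClasses.mk (α g) = ConjClasses.mk g then
          (Nat.card G : ℂ) / cc (ConjClasses.mk g) else 0) =
        ∑ g ∈ Finset.univ.filter (fun g : G => ConjClasses.mk g = c),
        (if c.map (α : G →* G) = c then (Nat.card G : ℂ) / cc c else 0) := by
      refine Finset.sum_congr rfl fun g hg => ?_
      rw [Finset.mem_filter] at hg
      rw [← hmap, hg.2]
    rw [h4, Finset.sum_const, nsmul_eq_mul]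
    change cc c * _ = _
    have h6 := cc_ne c
    split_ifs
    · field_simp
    · simp
  rw [h1] at h3
  have h7 := mul_left_cancel₀ hG h3
  have h8 : {χ : G → ℂ | χ ∈ AMc.Irr G ∧ (fun g => χ (α g)) = χ} =
      ((fs.filter fun χ => (fun g => χ (α g)) = χ : Finset (G → ℂ)) : Set (G → ℂ)) := by
    ext χ
    simp only [Set.mem_setOf_eq, Finset.coe_filter, hfs]
  rw [h8, Set.ncard_coe_finset]
  exact_mod_cast h7

end Pool.Agent.H97.FC
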