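import Pool.Agent.H6.FC.Lem

/-! MP_7500ea_al, board cfp_modules: row CHM -/

namespace Pool.Agent.H97.FC

open FI

theorem rpow_card_le {α : Type} [Finite α] [Nonempty α] {e e' : ℝ} (he : 0 < e) (h : e ≤ e') :
    (Nat.card α : ℝ) ^ (1 / e') ≤ (Nat.card α : ℝ) ^ (1 / e) := by
  refine Real.rpow_le_rpow_of_exponent_le ?_ (one_div_le_one_div_of_le he h)
  exact_mod_cast Nat.card_pos

theorem pf_CHM : T_CHM := by
  intro e e' he hee A _ _ S hS
  refine ⟨fun M _ _ q hq hk ν hν => ?_, fun hi M _ _ q hq hk ν hν σ a ha hσ hqσ => ?_⟩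
  · exact (rpow_card_le he hee).trans (hS.one M q hq hk ν hν)
  · obtain ⟨h1, h2⟩ := hS.two hi M q hq hk ν hν σ a ha hσ hqσ
    refine ⟨le_trans (mul_le_mul_of_nonneg_right (rpow_card_le he hee) ?_) h1,
      le_trans (mul_le_mul_of_nonneg_right (rpow_card_le he hee) ?_) h2⟩
    · positivity
    · positivity

end Pool.Agent.H97.FC
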