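import Pool.Agent.H6.FC.Lem

/-! MP_7500ea_al, board cfp_modules: row N85 -/

namespace Pool.Agent.H97.FC

open FI

theorem pf_N85 : T_N85 := by
  intro p hp
  have hp' : (5 : ℝ) ≤ p := by exact_mod_cast hp
  set x : ℝ := ((p : ℝ) - 1) / 2 with hx
  have hx2 : (2 : ℝ) ≤ x := by rw [hx]; linarith
  have hx0 : (0 : ℝ) < x := by linarith
  have hpx : (p : ℝ) = 2 * x + 1 := by rw [hx]; ring
  have h24 : (24 : ℝ) ^ ((1 : ℝ) / 3) ≤ 2885 / 1000 := by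
    have h1 : (24 : ℝ) ≤ (2885 / 1000 : ℝ) ^ (3 : ℝ) := by
      rw [show (3 : ℝ) = ((3 : ℕ) : ℝ) by norm_num, Real.rpow_natCast]
      norm_num
    calc (24 : ℝ) ^ ((1 : ℝ) / 3) ≤ ((2885 / 1000 : ℝ) ^ (3 : ℝ)) ^ ((1 : ℝ) / 3) :=
          Real.rpow_le_rpow (by norm_num) h1 (by norm_num)
      _ = 2885 / 1000 := by
          rw [← Real.rpow_mul (by norm_num)]
          norm_num
  have h24' : 0 ≤ (24 : ℝ) ^ ((1 : ℝ) / 3) := by positivity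
  have hpoly : (p : ℝ) * ((p : ℝ) ^ 2 - 1) ≤ 15 * x ^ 3 := by
    rw [hpx]
    nlinarith [mul_nonneg hx0.le (mul_nonneg (by linarith : (0 : ℝ) ≤ 7 * x + 2)
      (by linarith : (0 : ℝ) ≤ x - 2))]
  have hpow : (45 : ℝ) * x ^ 3 ≤ x ^ ((17 : ℝ) / 2) := by
    have h1 : (45 : ℝ) ≤ (2 : ℝ) ^ ((11 : ℝ) / 2) := by
      have h2 : (45 : ℝ) = ((45 : ℝ) ^ (2 : ℝ)) ^ ((1 : ℝ) / 2) := by
        rw [← Real.rpow_mul (by norm_num)]
        norm_num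
      have h3 : (2 : ℝ) ^ ((11 : ℝ) / 2) = ((2 : ℝ) ^ (11 : ℝ)) ^ ((1 : ℝ) / 2) := by
        rw [← Real.rpow_mul (by norm_num)]
        norm_num
      rw [h2, h3]
      refine Real.rpow_le_rpow (by positivity) ?_ (by norm_num)
      rw [show (2 : ℝ) = ((2 : ℕ) : ℝ) by norm_num, show (11 : ℝ) = ((11 : ℕ) : ℝ) by norm_num,
        Real.rpow_natCast, Real.rpow_natCast]
      norm_num
    have h4 : (2 : ℝ) ^ ((11 : ℝ) / 2) ≤ x ^ ((11 : ℝ) / 2) :=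
      Real.rpow_le_rpow (by norm_num) hx2 (by norm_num)
    have h5 : x ^ ((17 : ℝ) / 2) = x ^ ((11 : ℝ) / 2) * x ^ 3 := by
      rw [← Real.rpow_natCast x 3, ← Real.rpow_add hx0]
      norm_num
    rw [h5]
    exact mul_le_mul_of_nonneg_right (h1.trans h4) (by positivity)
  calc (24 : ℝ) ^ ((1 : ℝ) / 3) * (p * ((p : ℝ) ^ 2 - 1))
      ≤ (24 : ℝ) ^ ((1 : ℝ) / 3) * (15 * x ^ 3) := mul_le_mul_of_nonneg_left hpoly h24'
    _ ≤ 2885 / 1000 * (15 * x ^ 3) := mul_le_mul_of_nonneg_right h24 (by positivity)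
    _ ≤ 45 * x ^ 3 := by nlinarith [pow_pos hx0 3]
    _ ≤ x ^ ((17 : ℝ) / 2) := hpow

end Pool.Agent.H97.FC
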