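import Pool.Agent.H6.FC.Lem

/-! MP_7500ea_al, board cfp_modules: row STC -/

open scoped Classical ComplexConjugate

namespace Pool.Agent.H97.FC

open FI AMc AMt

theorem coe_mulSingle {Γ J : Type} [Group Γ] (M : J → Subgroup Γ) (i k : J) (x : M i) :
    (((Pi.mulSingle i x : ∀ i, M i) k : M k) : Γ) = if k = i then (x : Γ) else 1 := by
  by_cases h : k = i
  · subst h
    simp
  · rw [if_neg h, Pi.mulSingle_eq_of_ne h]
    rfl

section

variable {Γ J : Type} [Group Γ] (M : J → Subgroup Γ) (s : Equiv.Perm J) (u : Γ)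
  (h : ∀ i, ∀ x ∈ M i, u * x * u⁻¹ ∈ M (s i))

/-- conjugation permutes the factors -/
def th : (∀ i, M i) →* (∀ i, M i) where
  toFun m j := ⟨u * (m (s.symm j) : Γ) * u⁻¹, by
    have h1 := h (s.symm j) _ (m (s.symm j)).2
    rwa [Equiv.apply_symm_apply] at h1⟩
  map_one' := by
    funext j
    apply Subtype.ext
    simp
  map_mul' a b := by
    funext j
    apply Subtype.ext
    simp [mul_assoc]

theorem th_coe (m : ∀ i, M i) (j : J) :
    ((th M s u h m j : M j) : Γ) = u * (m (s.symm j) : Γ) * u⁻¹ := rfl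

theorem th_conj [Fintype J]
    (hc : Pairwise fun i j => ∀ x y : Γ, x ∈ M i → y ∈ M j → Commute x y) (m : ∀ i, M i) :
    u * Subgroup.noncommPiCoprod hc m * u⁻¹ = Subgroup.noncommPiCoprod hc (th M s u h m) := by
  have h1 : ((MulAut.conj u).toMonoidHom).comp (Subgroup.noncommPiCoprod hc) =
      (Subgroup.noncommPiCoprod hc).comp (th M s u h) := by
    apply MonoidHom.pi_ext
    intro i x
    have h2 : th M s u h (Pi.mulSingle i x) =
        Pi.mulSingle (s i) ⟨u * (x : Γ) * u⁻¹, h i x x.2⟩ := by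
      funext j
      apply Subtype.ext
      rw [th_coe, coe_mulSingle, coe_mulSingle]
      by_cases hj : j = s i
      · subst hj
        simp
      · rw [if_neg hj, if_neg]
        · simp
        · intro h3
          apply hj
          rw [← h3, Equiv.apply_symm_apply]
    simp only [MonoidHom.comp_apply, h2, Subgroup.noncommPiCoprod_mulSingle]
    simp
  have h4 := DFunLike.congr_fun h1 m
  simpa using h4

end

theorem irrS_off {Γ : Type} [Group Γ] {N : Subgroup Γ} {χ : Γ → ℂ} (h : χ ∈ IrrS N) {g : Γ}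
    (hg : g ∉ N) : χ g = 0 := by
  obtain ⟨ψ, -, rfl⟩ := h
  rw [ext0, dif_neg hg]

theorem pf_STC : T_STC := by
  intro Γ S J _ _ _ _ _ hS Z N π σ a hC hM ν hν hc F hF c hcF u
  have hinv : ∀ g, ν (u * g * u⁻¹) = ν g := fun g => congrFun (cen_inv hC.cen hν u) g
  have hmem : ∀ i g, g ∈ MM N π i ↔ u * g * u⁻¹ ∈ MM N π (σ u i) := by
    intro i g
    constructor
    · exact fun hg => (hM.cnj u i g hg).1
    · intro hg
      have h1 := (hM.cnj u⁻¹ _ _ hg).1
      have h2 : σ u⁻¹ (σ u i) = i := by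
        rw [map_inv]; simp
      have h3 : u⁻¹ * (u * g * u⁻¹) * u⁻¹⁻¹ = g := by group
      rwa [h2, h3] at h1
  have hfam : (fun i => cj u (c (σ u i))) ∈ Fam N π ν := by
    intro i
    obtain ⟨h1, h2⟩ := hcF (σ u i)
    refine ⟨FI.Lib.lS7 Γ (MM N π (σ u i)) (MM N π i) u (hmem i) _ h1, ?_⟩
    have h3 : ∑ g : Γ, cj u (c (σ u i)) g * starRingEnd ℂ (ν g) =
        ∑ g : Γ, c (σ u i) g * starRingEnd ℂ (ν g) := by
      rw [← Equiv.sum_comp (MulAut.conj u).toEquiv
        (fun g => c (σ u i) g * starRingEnd ℂ (ν g))]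
      refine Finset.sum_congr rfl fun g _ => ?_
      change c (σ u i) (u * g * u⁻¹) * _ = c (σ u i) (u * g * u⁻¹) * starRingEnd ℂ (ν (u * g * u⁻¹))
      rw [hinv]
    unfold Over
    rw [h3]
    exact h2
  refine ⟨hfam, ?_⟩
  funext g
  by_cases hg : g ∈ N
  · obtain ⟨z, hz, m, rfl⟩ := hM.gen hc g hg
    rw [hF.val _ hfam z hz m]
    change F c (u * (z * Subgroup.noncommPiCoprod hc m) * u⁻¹) = _
    have h1 : u * (z * Subgroup.noncommPiCoprod hc m) * u⁻¹ =
        z * Subgroup.noncommPiCoprod hc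
          (th (MM N π) (σ u) u (fun i x hx => (hM.cnj u i x hx).1) m) := by
      rw [← th_conj, ← mul_assoc, ← hC.cen z hz u]
      group
    rw [h1, hF.val c hcF z hz]
    congr 1
    rw [← Equiv.prod_comp (σ u)]
    refine Finset.prod_congr rfl fun i _ => ?_
    rw [th_coe]
    change _ = c (σ u i) (u * (m i : Γ) * u⁻¹)
    rw [Equiv.symm_apply_apply]
  · have h1 : F c ∈ Ab N ν := hF.bij.mapsTo hcF
    have h2 : F (fun i => cj u (c (σ u i))) ∈ Ab N ν := hF.bij.mapsTo hfam
    rw [irrS_off h2.1 hg]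
    refine irrS_off h1.1 ?_
    intro h3
    apply hg
    have h4 := hC.nor.conj_mem _ h3 u⁻¹
    have h5 : u⁻¹ * (u * g * u⁻¹) * u⁻¹⁻¹ = g := by group
    rwa [h5] at h4

end Pool.Agent.H97.FC
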